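import Pool.Agent.H66.IP.TA

set_option autoImplicit false

open Finset Pool.Agent.H6.NB Pool.Agent.H66.IP

namespace Pool.Agent.H15.IP

/-- The exponential near zero. -/
theorem exq_exp (t : ℝ) : |Real.exp t - 1| ≤ |t| * Real.exp |t| := by
  rcases le_or_gt 0 t with h | h
  · have h1 : 1 ≤ Real.exp t := Real.one_le_exp h
    rw [abs_of_nonneg (by linarith), abs_of_nonneg h]
    have h2 : -t + 1 ≤ Real.exp (-t) := Real.add_one_le_exp (-t)
    have h3 : Real.exp t * Real.exp (-t) = 1 := by rw [← Real.exp_add]; simp
    have h4 : Real.exp t * (-t + 1) ≤ Real.exp t * Real.exp (-t) :=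
      mul_le_mul_of_nonneg_left h2 (Real.exp_pos t).le
    rw [h3] at h4
    nlinarith
  · have h1 : Real.exp t ≤ 1 := Real.exp_le_one_iff.2 h.le
    rw [abs_of_nonpos (by linarith), abs_of_neg h]
    have h2 : t + 1 ≤ Real.exp t := Real.add_one_le_exp t
    have h3 : 1 ≤ Real.exp (-t) := Real.one_le_exp (by linarith)
    have h4 : -t * 1 ≤ -t * Real.exp (-t) := mul_le_mul_of_nonneg_left h3 (by linarith)
    linarith

theorem exq_exp' (t c : ℝ) (h : |t| ≤ c) : |Real.exp t - 1| ≤ |t| * Real.exp c :=
  (exq_exp t).trans (mul_le_mul_of_nonneg_left (Real.exp_le_exp.2 h) (abs_nonneg t))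

theorem pf_EXQ : T_EXQ := by
  intro g β θ hβ hθ hg z hz
  set u := g true false - g false false with hu
  set v := g false true - g false false with hv
  set D := g true true - g true false - g false true + g false false with hD
  have hu4 : |u| ≤ 4 * θ := by
    rw [abs_le]; constructor
    · have := hg false false true false; linarith
    · exact hg true false false false
  have hv4 : |v| ≤ 4 * θ := by
    rw [abs_le]; constructor
    · have := hg false false false true; linarith
    · exact hg false true false false
  have hD8 : |D| ≤ 8 * θ := by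
    rw [abs_le]; constructor
    · have h1 := hg true false true true
      have h2 := hg false true false false
      linarith
    · have h1 := hg true true true false
      have h2 := hg false false false true
      linarith
  have hb : ∀ s : ℝ, |β * s| = β * |s| := fun s => by rw [abs_mul, abs_of_pos hβ]
  have e1 : z true false = z false false * Real.exp (β * u) := by
    rw [hz, hz, ← Real.exp_add]; congr 1; rw [hu]; ring
  have e2 : z false true = z false false * Real.exp (β * v) := by
    rw [hz, hz, ← Real.exp_add]; congr 1; rw [hv]; ring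
  have e3 : z true true = z false false * (Real.exp (β * (u + v)) * Real.exp (β * D)) := by
    rw [hz, hz, ← Real.exp_add, ← Real.exp_add]; congr 1; rw [hu, hv, hD]; ring
  have e4 : Real.exp (β * (u + v)) = Real.exp (β * u) * Real.exp (β * v) := by
    rw [← Real.exp_add]; congr 1; ring
  have key : z true true - z true false - z false true + z false false =
      z false false * ((Real.exp (β * u) - 1) * (Real.exp (β * v) - 1) +
        Real.exp (β * (u + v)) * (Real.exp (β * D) - 1)) := by
    rw [e1, e2, e3, e4]; ring
  have hz0 : 0 < z false false := by rw [hz]; exact Real.exp_pos _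
  rw [key, abs_mul, abs_of_pos hz0, mul_assoc]
  apply mul_le_mul_of_nonneg_left _ hz0.le
  have hβθ : 0 ≤ β * θ := by positivity
  have b1 : |Real.exp (β * u) - 1| ≤ β * |u| * Real.exp (4 * (β * θ)) := by
    have := exq_exp' (β * u) (4 * (β * θ)) (by rw [hb]; nlinarith [abs_nonneg u])
    rwa [hb] at this
  have b2 : |Real.exp (β * v) - 1| ≤ β * |v| * Real.exp (4 * (β * θ)) := by
    have := exq_exp' (β * v) (4 * (β * θ)) (by rw [hb]; nlinarith [abs_nonneg v])
    rwa [hb] at this
  have b3 : |Real.exp (β * D) - 1| ≤ β * |D| * Real.exp (8 * (β * θ)) := by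
    have := exq_exp' (β * D) (8 * (β * θ)) (by rw [hb]; nlinarith [abs_nonneg D])
    rwa [hb] at this
  have b4 : Real.exp (β * (u + v)) ≤ Real.exp (8 * (β * θ)) := by
    apply Real.exp_le_exp.2
    have h1 := le_abs_self u
    have h2 := le_abs_self v
    nlinarith
  have c1 : Real.exp (4 * (β * θ)) * Real.exp (4 * (β * θ)) ≤ Real.exp (16 * (β * θ)) := by
    rw [← Real.exp_add]; apply Real.exp_le_exp.2; nlinarith
  have c2 : Real.exp (8 * (β * θ)) * Real.exp (8 * (β * θ)) = Real.exp (16 * (β * θ)) := by
    rw [← Real.exp_add]; congr 1; ring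
  calc |(Real.exp (β * u) - 1) * (Real.exp (β * v) - 1) +
        Real.exp (β * (u + v)) * (Real.exp (β * D) - 1)|
      ≤ |(Real.exp (β * u) - 1) * (Real.exp (β * v) - 1)| +
        |Real.exp (β * (u + v)) * (Real.exp (β * D) - 1)| := abs_add_le _ _
    _ = |Real.exp (β * u) - 1| * |Real.exp (β * v) - 1| +
        Real.exp (β * (u + v)) * |Real.exp (β * D) - 1| := by
        rw [abs_mul, abs_mul, abs_of_pos (Real.exp_pos (β * (u + v)))]
    _ ≤ (β * |u| * Real.exp (4 * (β * θ))) * (β * |v| * Real.exp (4 * (β * θ))) +
        Real.exp (8 * (β * θ)) * (β * |D| * Real.exp (8 * (β * θ))) := by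
        apply add_le_add
        · exact mul_le_mul b1 b2 (abs_nonneg _) (by positivity)
        · exact mul_le_mul b4 b3 (abs_nonneg _) (Real.exp_pos _).le
    _ = (Real.exp (4 * (β * θ)) * Real.exp (4 * (β * θ))) * (β ^ 2 * (|u| * |v|)) +
        (Real.exp (8 * (β * θ)) * Real.exp (8 * (β * θ))) * (β * |D|) := by ring
    _ ≤ Real.exp (16 * (β * θ)) * (β ^ 2 * (|u| * |v|)) +
        Real.exp (16 * (β * θ)) * (β * |D|) := by
        rw [c2]
        apply add_le_add_left
        exact mul_le_mul_of_nonneg_right c1 (by positivity)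
    _ = Real.exp (16 * (β * θ)) * (β ^ 2 * (|u| * |v|) + β * |D|) := by ring

/-- A difference of exponentials. -/
theorem exb_exp (s t M ε : ℝ) (hs : s ≤ M) (ht : t ≤ M) (h : |s - t| ≤ ε) :
    |Real.exp s - Real.exp t| ≤ ε * Real.exp M := by
  wlog hst : t ≤ s generalizing s t
  · rw [abs_sub_comm]
    exact this t s ht hs (by rwa [abs_sub_comm]) (le_of_lt (not_le.1 hst))
  have h1 : Real.exp t ≤ Real.exp s := Real.exp_le_exp.2 hst
  rw [abs_of_nonneg (by linarith)]
  rw [abs_of_nonneg (by linarith)] at h
  have h2 : (t - s) + 1 ≤ Real.exp (t - s) := Real.add_one_le_exp _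
  have h3 : Real.exp t = Real.exp s * Real.exp (t - s) := by rw [← Real.exp_add]; congr 1; ring
  have h4 : Real.exp s * ((t - s) + 1) ≤ Real.exp t := by
    rw [h3]; exact mul_le_mul_of_nonneg_left h2 (Real.exp_pos s).le
  have h5 : Real.exp s ≤ Real.exp M := Real.exp_le_exp.2 hs
  have h6 : Real.exp s - Real.exp t ≤ (s - t) * Real.exp s := by nlinarith
  have h7 : (s - t) * Real.exp s ≤ ε * Real.exp M :=
    mul_le_mul h h5 (Real.exp_pos s).le (by linarith)
  linarith

theorem pf_EXB : T_EXB := by
  intro g β ε M hβ hε hM hh z hz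
  have hb : ∀ a b : ℝ, |a - b| ≤ ε → |β * a - β * b| ≤ β * ε := by
    intro a b h
    rw [← mul_sub, abs_mul, abs_of_pos hβ]
    exact mul_le_mul_of_nonneg_left h hβ.le
  have hm : ∀ i j, β * g i j ≤ β * M := fun i j => mul_le_mul_of_nonneg_left (hM i j) hβ.le
  rcases hh with h | h
  · have h1 := exb_exp (β * g true true) (β * g false true) (β * M) (β * ε) (hm _ _) (hm _ _)
      (hb _ _ (h true))
    have h2 := exb_exp (β * g true false) (β * g false false) (β * M) (β * ε) (hm _ _) (hm _ _)
      (hb _ _ (h false))
    rw [← hz, ← hz] at h1 h2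
    calc |z true true - z true false - z false true + z false false|
        = |(z true true - z false true) - (z true false - z false false)| := by congr 1; ring
      _ ≤ |z true true - z false true| + |z true false - z false false| := abs_sub _ _
      _ ≤ 2 * (β * ε) * Real.exp (β * M) := by linarith
  · have h1 := exb_exp (β * g true true) (β * g true false) (β * M) (β * ε) (hm _ _) (hm _ _)
      (hb _ _ (h true))
    have h2 := exb_exp (β * g false true) (β * g false false) (β * M) (β * ε) (hm _ _) (hm _ _)
      (hb _ _ (h false))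
    rw [← hz, ← hz] at h1 h2
    calc |z true true - z true false - z false true + z false false|
        = |(z true true - z true false) - (z false true - z false false)| := by congr 1; ring
      _ ≤ |z true true - z true false| + |z false true - z false false| := abs_sub _ _
      _ ≤ 2 * (β * ε) * Real.exp (β * M) := by linarith

end Pool.Agent.H15.IP
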