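import Pool.Agent.H66.IP.TC

/-!
# Interactive proofs do not see forrelation: rows FUS (the limit) and PMS (writing the answers)
-/

set_option autoImplicit false

namespace Pool.Agent.H15.IP

open Finset Pool.Agent.H6.NB Pool.Agent.H70.OQ Pool.Agent.H70.EH Pool.Agent.H70.EI Pool.Agent.H78.XQ
open Pool.Agent.H66.IP

theorem pf_FUS : T_FUS := by
  intro ι sz B Gd R hpos h2 h3
  have hstep : ∀ (k : ℕ) (s : {s : ℕ × (List Bool → Bool) // ∀ p, sz p ≤ s.1 → Gd p s.2}),
      ∃ t : {s : ℕ × (List Bool → Bool) // ∀ p, sz p ≤ s.1 → Gd p s.2}, s.1.1 < t.1.1 ∧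
        (∀ w, (w.length ≤ s.1.1 ∨ ∃ p, sz p ≤ s.1.1 ∧ B p w) → t.1.2 w = s.1.2 w) ∧
        ∀ O'' : List Bool → Bool, (∀ w, w.length ≤ t.1.1 → O'' w = t.1.2 w) → R k O'' := by
    rintro k ⟨⟨M, O⟩, hs⟩
    obtain ⟨M', O', h4, h5, h6, h7⟩ := h3 k M O hs
    exact ⟨⟨(M', O'), h6⟩, h4, h5, h7⟩
  choose nx hn1 hn2 hn3 using hstep
  obtain ⟨st, -, hst⟩ : ∃ st : ℕ → {s : ℕ × (List Bool → Bool) // ∀ p, sz p ≤ s.1 → Gd p s.2},
      st 0 = ⟨(0, fun _ => false), fun p hp => absurd (hpos p) (Nat.not_lt.2 hp)⟩ ∧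
        ∀ k, st (k + 1) = nx k (st k) :=
    ⟨fun k => Nat.rec ⟨(0, fun _ => false), fun p hp => absurd (hpos p) (Nat.not_lt.2 hp)⟩
      (fun k s => nx k s) k, rfl, fun _ => rfl⟩
  have hM : ∀ k, k ≤ (st k).1.1 := by
    intro k
    induction k with
    | zero => exact Nat.zero_le _
    | succ k ih =>
      rw [hst]
      exact Nat.succ_le_of_lt (lt_of_le_of_lt ih (hn1 k (st k)))
  have hmono : ∀ k j, k ≤ j → (st k).1.1 ≤ (st j).1.1 := by
    intro k j hkj
    induction j, hkj using Nat.le_induction with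
    | base => exact le_rfl
    | succ j _ ih =>
      rw [hst]
      exact ih.trans (hn1 j (st j)).le
  have hag : ∀ k j, k ≤ j → ∀ w : List Bool,
      (w.length ≤ (st k).1.1 ∨ ∃ p, sz p ≤ (st k).1.1 ∧ B p w) →
      (st j).1.2 w = (st k).1.2 w := by
    intro k j hkj w hw
    induction j, hkj using Nat.le_induction with
    | base => rfl
    | succ j hj ih =>
      rw [hst, hn2 j (st j) w, ih]
      rcases hw with hw | ⟨p, hp, hB⟩
      · exact Or.inl (hw.trans (hmono k j hj))
      · exact Or.inr ⟨p, hp.trans (hmono k j hj), hB⟩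
  have hO : ∀ (k : ℕ) (w : List Bool), (w.length ≤ (st k).1.1 ∨ ∃ p, sz p ≤ (st k).1.1 ∧ B p w) →
      (st w.length).1.2 w = (st k).1.2 w := by
    intro k w hw
    rcases le_total k w.length with h | h
    · exact hag k _ h w hw
    · exact (hag w.length k h w (Or.inl (hM _))).symm
  refine ⟨fun w => (st w.length).1.2 w, fun p => ?_, fun k => ?_⟩
  · refine h2 p (st (sz p)).1.2 _ (fun w hw => (hO (sz p) w ?_).symm) ((st (sz p)).2 p (hM _))
    rcases hw with hw | hw
    · exact Or.inl (hw.trans (hM _))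
    · exact Or.inr ⟨p, hM _, hw⟩
  · refine hn3 k (st k) _ fun w hw => ?_
    rw [← hst] at hw ⊢
    exact hO (k + 1) w (Or.inl hw)

theorem pf_PMS : T_PMS := by
  classical
  intro I _ _ T ord f ok hok hf
  have key : ∀ R : Finset I, ∃ P : ∀ j, T j, ∀ j ∈ R, ok (f P j) j (P j) := by
    intro R
    induction R using Finset.induction_on_max_value ord with
    | empty => exact ⟨fun j => (hok true j).choose, fun j hj => absurd hj (Finset.notMem_empty j)⟩
    | insert a s ha hmax ih =>
      obtain ⟨P, hP⟩ := ih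
      obtain ⟨p, hp⟩ := hok (f P a) a
      refine ⟨Function.update P a p, fun j hj => ?_⟩
      have hja : f (Function.update P a p) j = f P j := by
        refine hf j a P p ?_
        rcases Finset.mem_insert.1 hj with rfl | hj
        · exact le_rfl
        · exact hmax j hj
      rw [hja]
      rcases Finset.mem_insert.1 hj with rfl | hj
      · rw [Function.update_self]
        exact hp
      · have hne : j ≠ a := fun h => ha (h ▸ hj)
        rw [Function.update_of_ne hne]
        exact hP j hj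
  obtain ⟨P, hP⟩ := key Finset.univ
  exact ⟨P, fun j => hP j (Finset.mem_univ j)⟩

end Pool.Agent.H15.IP
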