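import Pool.Agent.H15.IP.EXQ

set_option autoImplicit false

open Finset Pool.Agent.H6.NB Pool.Agent.H66.IP

namespace Pool.Agent.H15.IP

theorem lgr_log (x c : ℝ) (h : |x| ≤ c) : |x| ≤ |Real.exp x - 1| * Real.exp c := by
  have hc : 1 ≤ Real.exp c := Real.one_le_exp ((abs_nonneg x).trans h)
  rcases le_or_gt 0 x with h0 | h0
  · have h1 : x + 1 ≤ Real.exp x := Real.add_one_le_exp x
    rw [abs_of_nonneg h0, abs_of_nonneg (by linarith)]
    have h2 : (Real.exp x - 1) * 1 ≤ (Real.exp x - 1) * Real.exp c :=
      mul_le_mul_of_nonneg_left hc (by linarith)
    linarith
  · have h1 : Real.exp x ≤ 1 := Real.exp_le_one_iff.2 h0.le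
    rw [abs_of_neg h0] at h ⊢
    rw [abs_of_nonpos (by linarith)]
    have h2 : -x + 1 ≤ Real.exp (-x) := Real.add_one_le_exp (-x)
    have h3 : Real.exp x * Real.exp (-x) = 1 := by rw [← Real.exp_add]; simp
    have h4 : (1 - Real.exp x) * Real.exp (-x) ≤ (1 - Real.exp x) * Real.exp c :=
      mul_le_mul_of_nonneg_left (Real.exp_le_exp.2 h) (by linarith)
    nlinarith

theorem pf_LGR : T_LGR := by
  intro v β θ hβ hθ hv Z hZ
  set D := v true true - v true false - v false true + v false false with hD
  have hβθ : 0 ≤ β * θ := by positivity
  have hpos : ∀ i j, 0 < Z i j := fun i j => by rw [hZ]; exact Real.exp_pos _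
  have hb : ∀ s : ℝ, |β * s| = β * |s| := fun s => by rw [abs_mul, abs_of_pos hβ]
  have hD2 : |D| ≤ 2 * θ := by
    have h1 := (hv true true).1
    have h2 := (hv true false).1
    simp only [Bool.not_true] at h1 h2
    have : D = (v true true - v false true) - (v true false - v false false) := by rw [hD]; ring
    rw [this]
    calc |(v true true - v false true) - (v true false - v false false)|
        ≤ |v true true - v false true| + |v true false - v false false| := abs_sub _ _
      _ ≤ 2 * θ := by linarith
  have hρ : Real.exp (β * D) = Z true true * Z false false / (Z true false * Z false true) := by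
    rw [eq_div_iff (mul_pos (hpos _ _) (hpos _ _)).ne']
    simp only [hZ]
    rw [← Real.exp_add, ← Real.exp_add, ← Real.exp_add]
    congr 1; rw [hD]; ring
  have h1 : β * |D| ≤ |Real.exp (β * D) - 1| * Real.exp (2 * (β * θ)) := by
    have := lgr_log (β * D) (2 * (β * θ)) (by rw [hb]; nlinarith)
    rwa [hb] at this
  -- the quotient
  have e10 : |(Z true false - Z false false) / Z true false| ≤
      β * |v true false - v false false| * Real.exp (β * θ) := by
    have h2 := exq_exp' (β * (v false false - v true false)) (β * θ) (by
      rw [hb]
      have := (hv false false).1
      simp only [Bool.not_false] at this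
      exact mul_le_mul_of_nonneg_left this hβ.le)
    rw [hb, abs_sub_comm (v false false)] at h2
    have h3 : (Z true false - Z false false) / Z true false =
        -(Real.exp (β * (v false false - v true false)) - 1) := by
      rw [div_eq_iff (hpos _ _).ne', hZ, hZ]
      have : Real.exp (β * v false false) =
          Real.exp (β * (v false false - v true false)) * Real.exp (β * v true false) := by
        rw [← Real.exp_add]; congr 1; ring
      rw [this]; ring
    rw [h3, abs_neg]; exact h2
  have e01 : |(Z false true - Z false false) / Z false true| ≤
      β * |v false true - v false false| * Real.exp (β * θ) := by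
    have h2 := exq_exp' (β * (v false false - v false true)) (β * θ) (by
      rw [hb]
      have := (hv false false).2
      simp only [Bool.not_false] at this
      exact mul_le_mul_of_nonneg_left this hβ.le)
    rw [hb, abs_sub_comm (v false false)] at h2
    have h3 : (Z false true - Z false false) / Z false true =
        -(Real.exp (β * (v false false - v false true)) - 1) := by
      rw [div_eq_iff (hpos _ _).ne', hZ, hZ]
      have : Real.exp (β * v false false) =
          Real.exp (β * (v false false - v false true)) * Real.exp (β * v false true) := by
        rw [← Real.exp_add]; congr 1; ring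
      rw [this]; ring
    rw [h3, abs_neg]; exact h2
  set W := Z true true - Z true false - Z false true + Z false false with hW
  have h4 : Real.exp (β * D) - 1 = Z false false * W / (Z true false * Z false true) -
      (Z true false - Z false false) / Z true false *
        ((Z false true - Z false false) / Z false true) := by
    rw [hρ, hW]
    have h5 := (hpos true false).ne'
    have h6 := (hpos false true).ne'
    field_simp
    ring
  have h5 : |Real.exp (β * D) - 1| ≤ Z false false * |W| / (Z true false * Z false true) +
      β ^ 2 * (|v true false - v false false| * |v false true - v false false|) *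
        Real.exp (2 * (β * θ)) := by
    rw [h4]
    have h6 : |Z false false * W / (Z true false * Z false true)| =
        Z false false * |W| / (Z true false * Z false true) := by
      rw [abs_div, abs_mul, abs_of_pos (hpos false false),
        abs_of_pos (mul_pos (hpos true false) (hpos false true))]
    have h7 : |(Z true false - Z false false) / Z true false *
        ((Z false true - Z false false) / Z false true)| ≤
        (β * |v true false - v false false| * Real.exp (β * θ)) *
        (β * |v false true - v false false| * Real.exp (β * θ)) := by
      rw [abs_mul]
      exact mul_le_mul e10 e01 (abs_nonneg _) (by positivity)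
    have h8 : Real.exp (β * θ) * Real.exp (β * θ) = Real.exp (2 * (β * θ)) := by
      rw [← Real.exp_add]; congr 1; ring
    calc _ ≤ |Z false false * W / (Z true false * Z false true)| +
        |(Z true false - Z false false) / Z true false *
        ((Z false true - Z false false) / Z false true)| := abs_sub _ _
      _ ≤ Z false false * |W| / (Z true false * Z false true) +
        (β * |v true false - v false false| * Real.exp (β * θ)) *
        (β * |v false true - v false false| * Real.exp (β * θ)) := by rw [h6]; linarith
      _ = _ := by rw [← h8]; ring
  have h9 : |D| ≤ |Real.exp (β * D) - 1| * Real.exp (2 * (β * θ)) / β := by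
    rw [le_div_iff₀ hβ]; linarith
  have h10 : |Real.exp (β * D) - 1| * Real.exp (2 * (β * θ)) ≤
      (Z false false * |W| / (Z true false * Z false true) +
      β ^ 2 * (|v true false - v false false| * |v false true - v false false|) *
        Real.exp (2 * (β * θ))) * Real.exp (2 * (β * θ)) :=
    mul_le_mul_of_nonneg_right h5 (Real.exp_pos _).le
  have h11 : Real.exp (2 * (β * θ)) * Real.exp (2 * (β * θ)) = Real.exp (4 * (β * θ)) := by
    rw [← Real.exp_add]; congr 1; ring
  calc |D| ≤ |Real.exp (β * D) - 1| * Real.exp (2 * (β * θ)) / β := h9
    _ ≤ (Z false false * |W| / (Z true false * Z false true) +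
      β ^ 2 * (|v true false - v false false| * |v false true - v false false|) *
        Real.exp (2 * (β * θ))) * Real.exp (2 * (β * θ)) / β :=
        div_le_div_of_nonneg_right h10 hβ.le
    _ = _ := by
        rw [← h11]
        field_simp

end Pool.Agent.H15.IP
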