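import Pool.Agent.H66.IP.TC

/-!
# Interactive proofs do not see forrelation: row STG (a stage with given instances)
-/

set_option autoImplicit false

namespace Pool.Agent.H15.IP

open Finset Pool.Agent.H6.NB Pool.Agent.H70.OQ Pool.Agent.H70.EH Pool.Agent.H70.EI Pool.Agent.H78.XQ
open Pool.Agent.H66.IP

section stg

variable {I : Type} [Fintype I] [DecidableEq I] {T : I → Type} [∀ j, Fintype (T j)]

private theorem stg_one (m₀ : ∀ j, T j → ℝ) (h1 : ∀ j, ∑ p, m₀ j p = 1) :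
    ∑ P : (∀ j, T j), ∏ j, m₀ j (P j) = 1 := by
  have h2 := Finset.prod_univ_sum (fun j => (Finset.univ : Finset (T j))) (fun j p => m₀ j p)
  rw [Fintype.piFinset_univ] at h2
  rw [← h2, Finset.prod_congr rfl fun j _ => h1 j, Finset.prod_const_one]

private theorem stg_abs (hHY3 : T_HY3) (ord : I → ℕ) (m₀ : ∀ j, T j → ℝ)
    (m : Bool → ∀ j, T j → ℝ) (η : I → ℝ) (ε : ℝ)
    (h0 : ∀ j p, 0 ≤ m₀ j p) (h1 : ∀ j, ∑ p, m₀ j p = 1) (hm0 : ∀ b j p, 0 ≤ m b j p)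
    (hm1 : ∀ b j, ∑ p, m b j p ≤ 1) (hm2 : ∀ b j, |∑ p, m b j p - 1| ≤ η j)
    (hη : ∀ j, 0 ≤ η j) (hε : ∑ j, η j ≤ ε) (f : (∀ j, T j) → I → Bool)
    (hf : ∀ i j P p, ord i ≤ ord j → f (Function.update P j p) i = f P i)
    (F : (∀ j, T j) → ℝ) (hF : ∀ b j P, |∑ p, m b j p * F (Function.update P j p) -
      ∑ p, m₀ j p * F (Function.update P j p)| ≤ η j) :
    |∑ P : (∀ j, T j), (∏ j, m (f P j) j (P j)) * F P -
      ∑ P : (∀ j, T j), (∏ j, m₀ j (P j)) * F P| ≤ ε ∧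
    |∑ P : (∀ j, T j), (∏ j, m (f P j) j (P j)) - 1| ≤ ε := by
  refine ⟨(hHY3 I T ord m₀ m f F η h0 (fun j => (h1 j).le) hm0 hm1 hη hf hF).trans hε, ?_⟩
  have h2 := (hHY3 I T ord m₀ m f (fun _ => 1) η h0 (fun j => (h1 j).le) hm0 hm1 hη hf
    (fun b j _ => by
      simp only [mul_one]
      rw [h1 j]
      exact hm2 b j)).trans hε
  simp only [mul_one] at h2
  rwa [stg_one m₀ h1] at h2

private theorem stg_lo (hHY3 : T_HY3) (ord : I → ℕ) (m₀ : ∀ j, T j → ℝ)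
    (m : Bool → ∀ j, T j → ℝ) (η : I → ℝ) (ε : ℝ)
    (h0 : ∀ j p, 0 ≤ m₀ j p) (h1 : ∀ j, ∑ p, m₀ j p = 1) (hm0 : ∀ b j p, 0 ≤ m b j p)
    (hm1 : ∀ b j, ∑ p, m b j p ≤ 1) (hm2 : ∀ b j, |∑ p, m b j p - 1| ≤ η j)
    (hη : ∀ j, 0 ≤ η j) (hε : ∑ j, η j ≤ ε) (f : (∀ j, T j) → I → Bool)
    (hf : ∀ i j P p, ord i ≤ ord j → f (Function.update P j p) i = f P i)
    (F : (∀ j, T j) → ℝ) (hF : ∀ b j P, |∑ p, m b j p * F (Function.update P j p) -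
      ∑ p, m₀ j p * F (Function.update P j p)| ≤ η j) (c : ℝ) (hc : 0 ≤ c)
    (h : ∀ P, (∀ j, m (f P j) j (P j) ≠ 0) → c ≤ F P) :
    c * (1 - ε) - ε ≤ ∑ P : (∀ j, T j), (∏ j, m₀ j (P j)) * F P := by
  obtain ⟨h3, h4⟩ := stg_abs hHY3 ord m₀ m η ε h0 h1 hm0 hm1 hm2 hη hε f hf F hF
  have h5 : c * ∑ P : (∀ j, T j), (∏ j, m (f P j) j (P j)) ≤
      ∑ P : (∀ j, T j), (∏ j, m (f P j) j (P j)) * F P := by
    rw [Finset.mul_sum]
    refine Finset.sum_le_sum fun P _ => ?_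
    have h6 : 0 ≤ ∏ j, m (f P j) j (P j) := Finset.prod_nonneg fun j _ => hm0 _ _ _
    by_cases h7 : ∏ j, m (f P j) j (P j) = 0
    · rw [h7, mul_zero, zero_mul]
    · rw [mul_comm]
      refine mul_le_mul_of_nonneg_left (h P fun j => ?_) h6
      exact fun h8 => h7 (Finset.prod_eq_zero (Finset.mem_univ j) h8)
  have h8 := (abs_le.1 h3).2
  have h9 := (abs_le.1 h4).1
  have h10 : c * (1 - ε) ≤ c * ∑ P : (∀ j, T j), (∏ j, m (f P j) j (P j)) :=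
    mul_le_mul_of_nonneg_left (by linarith) hc
  linarith

private theorem stg_up (hHY3 : T_HY3) (ord : I → ℕ) (m₀ : ∀ j, T j → ℝ)
    (m : Bool → ∀ j, T j → ℝ) (η : I → ℝ) (ε : ℝ)
    (h0 : ∀ j p, 0 ≤ m₀ j p) (h1 : ∀ j, ∑ p, m₀ j p = 1) (hm0 : ∀ b j p, 0 ≤ m b j p)
    (hm1 : ∀ b j, ∑ p, m b j p ≤ 1) (hm2 : ∀ b j, |∑ p, m b j p - 1| ≤ η j)
    (hη : ∀ j, 0 ≤ η j) (hε : ∑ j, η j ≤ ε) (f : (∀ j, T j) → I → Bool)
    (hf : ∀ i j P p, ord i ≤ ord j → f (Function.update P j p) i = f P i)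
    (F : (∀ j, T j) → ℝ) (hF : ∀ b j P, |∑ p, m b j p * F (Function.update P j p) -
      ∑ p, m₀ j p * F (Function.update P j p)| ≤ η j) (c : ℝ) (hc : 0 ≤ c)
    (h : ∀ P, (∀ j, m (f P j) j (P j) ≠ 0) → F P ≤ c) :
    ∑ P : (∀ j, T j), (∏ j, m₀ j (P j)) * F P ≤ c * (1 + ε) + ε := by
  obtain ⟨h3, h4⟩ := stg_abs hHY3 ord m₀ m η ε h0 h1 hm0 hm1 hm2 hη hε f hf F hF
  have h5 : ∑ P : (∀ j, T j), (∏ j, m (f P j) j (P j)) * F P ≤
      c * ∑ P : (∀ j, T j), (∏ j, m (f P j) j (P j)) := by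
    rw [Finset.mul_sum]
    refine Finset.sum_le_sum fun P _ => ?_
    have h6 : 0 ≤ ∏ j, m (f P j) j (P j) := Finset.prod_nonneg fun j _ => hm0 _ _ _
    by_cases h7 : ∏ j, m (f P j) j (P j) = 0
    · rw [h7, mul_zero, zero_mul]
    · rw [mul_comm c]
      refine mul_le_mul_of_nonneg_left (h P fun j => ?_) h6
      exact fun h8 => h7 (Finset.prod_eq_zero (Finset.mem_univ j) h8)
  have h8 := (abs_le.1 h3).1
  have h9 := (abs_le.1 h4).2
  have h10 : c * ∑ P : (∀ j, T j), (∏ j, m (f P j) j (P j)) ≤ c * (1 + ε) :=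
    mul_le_mul_of_nonneg_left (by linarith) hc
  linarith

end stg

theorem pf_STG (hHY3 : T_HY3) (hMSB : T_MSB) (hSMS : T_SMS) (hFDC : T_FDC) :
    Pool.Agent.H66.IP.T_STG := by
  classical
  intro V n E O F Z _ _ g₁ g₂ hZ hn hE hF01 hfool hgap
  by_contra hcon
  push Not at hcon
  -- the parameters
  have hε : ∑ p : {a // a ∈ E}, (1 / 8 : ℝ) ^ scl V p.1 ≤ 1 / 1000 := by
    rw [Finset.sum_coe_sort E (fun p => (1 / 8 : ℝ) ^ scl V p)]
    refine (hSMS V E n hn hE).trans ?_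
    calc (1 / 4 : ℝ) ^ n ≤ (1 / 4) ^ 20 := pow_le_pow_of_le_one (by norm_num) (by norm_num) hn
      _ ≤ 1 / 1000 := by norm_num
  have hη : ∀ p : {a // a ∈ E}, (0 : ℝ) ≤ (1 / 8) ^ scl V p.1 := fun p => by positivity
  have h0 : ∀ (p : {a // a ∈ E}) c, 0 ≤ m0p V p.1 c := fun p => (hMSB V p.1).1
  have h1 : ∀ p : {a // a ∈ E}, ∑ c, m0p V p.1 c = 1 := fun p => (hMSB V p.1).2.1
  have hm0 : ∀ (b : Bool) (p : {a // a ∈ E}) c, 0 ≤ mBp V p.1 b c := fun b p =>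
    ((hMSB V p.1).2.2 b).1
  have hm1 : ∀ (b : Bool) (p : {a // a ∈ E}), ∑ c, mBp V p.1 b c ≤ 1 := fun b p =>
    ((hMSB V p.1).2.2 b).2.1
  have hm2 : ∀ (b : Bool) (p : {a // a ∈ E}), |∑ c, mBp V p.1 b c - 1| ≤ (1 / 8) ^ scl V p.1 :=
    fun b p => ((hMSB V p.1).2.2 b).2.2
  have hf : ∀ (g : List Bool → Bool) (i j : {a // a ∈ E})
      (P : ∀ p : {a // a ∈ E}, CP (dm V) p.1) (c : CP (dm V) j.1), scl V i.1 ≤ scl V j.1 →
      decide ((V i.1.1).acc i.1.2 (O (Function.update P j c) g)) =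
        decide ((V i.1.1).acc i.1.2 (O P g)) := by
    intro g i j P c hij
    exact decide_eq_decide.2 (hFDC V E O hZ P g i.1 j.1 j.2 c hij)
  have hF : ∀ (g : List Bool → Bool) (b : Bool) (j : {a // a ∈ E})
      (P : ∀ p : {a // a ∈ E}, CP (dm V) p.1),
      |∑ c : CP (dm V) j.1, mBp V j.1 b c * F (O (Function.update P j c) g) -
        ∑ c : CP (dm V) j.1, m0p V j.1 c * F (O (Function.update P j c) g)| ≤
        (1 / 8) ^ scl V j.1 := fun g b j P => hfool E O hZ P g j.1 j.2 b (hE j.1 j.2)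
  have hgood : ∀ (g : List Bool → Bool) (P : ∀ p : {a // a ∈ E}, CP (dm V) p.1),
      (∀ j : {a // a ∈ E}, mBp V j.1 (decide ((V j.1.1).acc j.1.2 (O P g))) (P j) ≠ 0) →
      ∀ p ∈ E, Good V p (O P g) := by
    intro g P h p hp
    have h2 := h ⟨p, hp⟩
    unfold mBp mB at h2
    have h3 : OkB (qs (sp V p)) (sp V p).length (rns (sp V p)) (wln (sp V p))
        (decide ((V p.1).acc p.2 (O P g))) (P ⟨p, hp⟩) := by
      by_contra h4
      rw [if_neg h4] at h2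
      exact h2 rfl
    unfold Good
    have h5 : (cps (O P g) (sp V p), cst (O P g) (sp V p)) = P ⟨p, hp⟩ :=
      Prod.ext (hZ.blk P g p hp) (hZ.cor P g p hp)
    rw [h5]
    exact h3
  have hlo : ∀ z : Z, 2 / 3 * (1 - 1 / 1000) - 1 / 1000 ≤
      ∑ P : (∀ p : {a // a ∈ E}, CP (dm V) p.1), (∏ j, m0p V j.1 (P j)) * F (O P (g₁ z)) :=
    fun z => stg_lo hHY3 (fun p : {a // a ∈ E} => scl V p.1) (fun p c => m0p V p.1 c)
      (fun b p c => mBp V p.1 b c) (fun p => (1 / 8) ^ scl V p.1) (1 / 1000) h0 h1 hm0 hm1 hm2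
      hη hε (fun P p => decide ((V p.1.1).acc p.1.2 (O P (g₁ z)))) (hf (g₁ z))
      (fun P => F (O P (g₁ z))) (hF (g₁ z)) (2 / 3) (by norm_num)
      (fun P hP => (hcon z P).1 (hgood (g₁ z) P hP))
  have hup : ∀ z : Z, ∑ P : (∀ p : {a // a ∈ E}, CP (dm V) p.1),
      (∏ j, m0p V j.1 (P j)) * F (O P (g₂ z)) ≤ 1 / 3 * (1 + 1 / 1000) + 1 / 1000 :=
    fun z => stg_up hHY3 (fun p : {a // a ∈ E} => scl V p.1) (fun p c => m0p V p.1 c)
      (fun b p c => mBp V p.1 b c) (fun p => (1 / 8) ^ scl V p.1) (1 / 1000) h0 h1 hm0 hm1 hm2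
      hη hε (fun P p => decide ((V p.1.1).acc p.1.2 (O P (g₂ z)))) (hf (g₂ z))
      (fun P => F (O P (g₂ z))) (hF (g₂ z)) (1 / 3) (by norm_num)
      (fun P hP => (hcon z P).2 (hgood (g₂ z) P hP))
  have hone : ∑ P : (∀ p : {a // a ∈ E}, CP (dm V) p.1), ∏ j, m0p V j.1 (P j) = 1 :=
    stg_one (fun p : {a // a ∈ E} => fun c => m0p V p.1 c) h1
  have hsum : ∑ z : Z, (∑ P : (∀ p : {a // a ∈ E}, CP (dm V) p.1),
      (∏ j, m0p V j.1 (P j)) * F (O P (g₁ z)) -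
      ∑ P : (∀ p : {a // a ∈ E}, CP (dm V) p.1), (∏ j, m0p V j.1 (P j)) * F (O P (g₂ z))) ≤
      Fintype.card Z / 4 := by
    calc _ = ∑ P : (∀ p : {a // a ∈ E}, CP (dm V) p.1), (∏ j, m0p V j.1 (P j)) *
          ∑ z : Z, (F (O P (g₁ z)) - F (O P (g₂ z))) := by
          simp only [← Finset.sum_sub_distrib, ← mul_sub]
          rw [Finset.sum_comm]
          refine Finset.sum_congr rfl fun P _ => ?_
          rw [Finset.mul_sum]
      _ ≤ ∑ P : (∀ p : {a // a ∈ E}, CP (dm V) p.1), (∏ j, m0p V j.1 (P j)) *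
          (Fintype.card Z / 4) := Finset.sum_le_sum fun P _ =>
            mul_le_mul_of_nonneg_left (hgap P) (Finset.prod_nonneg fun j _ => h0 _ _)
      _ = Fintype.card Z / 4 := by rw [← Finset.sum_mul, hone, one_mul]
  have hge : ∑ _z : Z, (0.33 : ℝ) ≤ ∑ z : Z, (∑ P : (∀ p : {a // a ∈ E}, CP (dm V) p.1),
      (∏ j, m0p V j.1 (P j)) * F (O P (g₁ z)) -
      ∑ P : (∀ p : {a // a ∈ E}, CP (dm V) p.1), (∏ j, m0p V j.1 (P j)) * F (O P (g₂ z))) := by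
    refine Finset.sum_le_sum fun z _ => ?_
    have h2 := hlo z
    have h3 := hup z
    norm_num at h2 h3 ⊢
    linarith
  have hcard : (0 : ℝ) < Fintype.card Z := by exact_mod_cast Fintype.card_pos
  rw [Finset.sum_const, Finset.card_univ, nsmul_eq_mul] at hge
  have h4 := hge.trans hsum
  norm_num at h4
  linarith

end Pool.Agent.H15.IP
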